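import Pool.Agent.W707.TV.Gam
import Pool.Agent.W709.VC.JLim

/-! Dependence on the colour at `e^{π i/(M+1/2)}`: `S_JSUM`, `S_COLBIG`. -/

set_option autoImplicit false

namespace Pool.Agent.W505.TV

open Filter Finset EvenVol Pool.Agent.H112R4.VL Pool.Agent.W709.VC Pool.Agent.W707.TV
open scoped Real Topology ComplexConjugate

lemma vh_conj (M : ℕ) : conj (vh M) = (vh M)⁻¹ := by
  unfold vh
  rw [← Complex.exp_conj, ← Complex.exp_neg]
  congr 1
  rw [map_div₀, map_mul, Complex.conj_I, Complex.conj_ofReal, Complex.conj_ofReal]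
  ring

lemma conj_inv_vh (M : ℕ) : conj (vh M)⁻¹ = vh M := by
  rw [← vh_conj, Complex.conj_conj]

lemma gam_mul (A : ℤ) (M n : ℕ) : gamH A (vh M) n * gamH (-A) (vh M) n =
    (-1) ^ n * ((‖gamH A (vh M) n‖ ^ 2 : ℝ) : ℂ) := by
  rw [gamH_neg, conj_inv_vh, ← Complex.normSq_eq_norm_sq, ← Complex.mul_conj]
  ring

lemma JD_vh (A : ℤ) (M i : ℕ) : JD A (-A) i (vh M) = ∑ n ∈ range i,
    (∏ j ∈ range n, (br (vh M) ((i : ℤ) + ((j : ℤ) + 1)) * br (vh M) ((i : ℤ) - ((j : ℤ) + 1)))) *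
      ((‖gamH A (vh M) n‖ ^ 2 : ℝ) : ℂ) := by
  unfold JD
  apply Finset.sum_congr rfl
  intro n _
  rw [gam_mul]
  have hs : ((-1 : ℂ) ^ n) ^ 2 = 1 := by rw [← pow_mul, mul_comm, pow_mul]; norm_num
  linear_combination ((∏ j ∈ range n, (br (vh M) ((i : ℤ) + ((j : ℤ) + 1)) *
    br (vh M) ((i : ℤ) - ((j : ℤ) + 1)))) * ((‖gamH A (vh M) n‖ ^ 2 : ℝ) : ℂ)) * hs

lemma PC_eq (M i n : ℕ) : ‖∏ j ∈ range n, (br (vh M) ((i : ℤ) + ((j : ℤ) + 1)) *
    br (vh M) ((i : ℤ) - ((j : ℤ) + 1)))‖ = PC M i n := by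
  unfold PC
  rw [norm_prod]

/-- the half-integer points -/
noncomputable def ah (M j : ℕ) : ℝ := 2 * Real.sin (π * (j + 1 / 2) / Rh M)

/-- the integer points -/
noncomputable def bh (M j : ℕ) : ℝ := 2 * Real.sin (π * (j + 1) / Rh M)

lemma ah_pos {M j : ℕ} (h : j < M) : 0 < ah M j := by
  unfold ah
  have hR := Rh_pos M
  have hp := Real.pi_pos
  have hj : (j : ℝ) + 1 ≤ M := by exact_mod_cast h
  apply mul_pos two_pos
  apply Real.sin_pos_of_pos_of_lt_pi
  · positivity
  · rw [div_lt_iff₀ hR]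
    unfold Rh
    nlinarith

lemma bh_pos {M j : ℕ} (h : j < M) : 0 < bh M j := by
  unfold bh
  have hR := Rh_pos M
  have hp := Real.pi_pos
  have hj : (j : ℝ) + 1 ≤ M := by exact_mod_cast h
  apply mul_pos two_pos
  apply Real.sin_pos_of_pos_of_lt_pi
  · positivity
  · rw [div_lt_iff₀ hR]
    unfold Rh
    nlinarith

lemma ah_refl {M j : ℕ} (h : j < M) : ah M (M - 1 - j) = bh M j := by
  unfold ah bh
  have hR := Rh_pos M
  rw [← Real.sin_pi_sub]
  congr 2
  have : ((M - 1 - j : ℕ) : ℝ) = M - 1 - j := by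
    rw [Nat.cast_sub (by omega), Nat.cast_sub (by omega)]
    simp
  rw [this, eq_div_iff hR.ne', sub_mul, div_mul_cancel₀ _ hR.ne']
  unfold Rh
  ring

lemma br_top (M j : ℕ) : br (vh M) ((M : ℤ) + ((j : ℤ) + 1)) * br (vh M) ((M : ℤ) - ((j : ℤ) + 1)) =
    ((ah M j * ah M (j + 1) : ℝ) : ℂ) := by
  rw [br_vh, br_vh]
  have hR := Rh_pos M
  have e1 : Real.sin (π * (((M : ℤ) + ((j : ℤ) + 1) : ℤ) : ℝ) / Rh M) =
      - Real.sin (π * (j + 1 / 2) / Rh M) := by
    rw [← Real.sin_add_pi]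
    congr 1
    push_cast
    rw [div_add' _ _ _ hR.ne']
    congr 1
    unfold Rh
    ring
  have e2 : Real.sin (π * (((M : ℤ) - ((j : ℤ) + 1) : ℤ) : ℝ) / Rh M) =
      Real.sin (π * ((j + 1 : ℕ) + 1 / 2) / Rh M) := by
    rw [← Real.sin_pi_sub]
    congr 1
    push_cast
    rw [sub_eq_iff_eq_add, ← add_div, eq_div_iff hR.ne']
    unfold Rh
    ring
  rw [e1, e2]
  unfold ah
  push_cast
  have hI : Complex.I ^ 2 = -1 := Complex.I_sq
  linear_combination (-4 * Complex.sin (π * (j + 1 / 2) / Rh M) *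
    Complex.sin (π * (j + 1 + 1 / 2) / Rh M)) * hI

lemma PC_top {M n : ℕ} (h : n < M) : PC M M n = ∏ j ∈ range n, (ah M j * ah M (j + 1)) := by
  unfold PC
  apply Finset.prod_congr rfl
  intro j hj
  rw [Finset.mem_range] at hj
  rw [br_top, Complex.norm_real, Real.norm_eq_abs, abs_of_pos]
  exact mul_pos (ah_pos (by omega)) (ah_pos (by omega))

lemma prod_top {M n : ℕ} (h : n < M) : ∏ j ∈ range n, (br (vh M) ((M : ℤ) + ((j : ℤ) + 1)) *
    br (vh M) ((M : ℤ) - ((j : ℤ) + 1))) = ((PC M M n : ℝ) : ℂ) := by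
  rw [PC_top h, Complex.ofReal_prod]
  apply Finset.prod_congr rfl
  intro j _
  exact br_top M j

theorem jsum : S_JSUM := by
  intro A M i hi hiM
  constructor
  · rw [JD_vh]
    refine (norm_sum_le _ _).trans (Finset.sum_le_sum (fun n _ => ?_))
    rw [norm_mul, PC_eq, Complex.norm_real, Real.norm_eq_abs, abs_of_nonneg (sq_nonneg _)]
  · intro _
    rw [JD_vh, Complex.ofReal_sum]
    apply Finset.sum_congr rfl
    intro n hn
    rw [Finset.mem_range] at hn
    rw [prod_top hn, Complex.ofReal_mul]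

/-! ## the largest colour -/

lemma brf_norm {M n : ℕ} (h : n < M) : ‖brf (vh M) n‖ = ∏ j ∈ range n, bh M j := by
  unfold brf
  rw [norm_prod]
  apply Finset.prod_congr rfl
  intro j hj
  rw [Finset.mem_range] at hj
  rw [br_vh, norm_mul, norm_mul, Complex.norm_I, Complex.norm_real, Real.norm_eq_abs]
  have h1 := bh_pos (M := M) (j := j) (by omega)
  unfold bh at h1 ⊢
  push_cast
  rw [abs_of_pos (by linarith)]
  norm_num

lemma ah_mul_le (M j : ℕ) : ah M j * ah M (j + 1) ≤ bh M j ^ 2 := by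
  unfold ah bh
  have e1 : π * ((j : ℝ) + 1 / 2) / Rh M = π * (j + 1) / Rh M - π / 2 / Rh M := by ring
  have e2 : π * (((j + 1 : ℕ) : ℝ) + 1 / 2) / Rh M = π * (j + 1) / Rh M + π / 2 / Rh M := by
    push_cast
    ring
  rw [e1, e2, Real.sin_sub, Real.sin_add]
  set s := Real.sin (π * (j + 1) / Rh M)
  set c := Real.cos (π * (j + 1) / Rh M)
  have h1 := Real.sin_sq_add_cos_sq (π * (j + 1) / Rh M)
  have h2 := Real.sin_sq_add_cos_sq (π / 2 / Rh M)
  set s' := Real.sin (π / 2 / Rh M)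
  set c' := Real.cos (π / 2 / Rh M)
  have h3 : 2 * (s * c' - c * s') * (2 * (s * c' + c * s')) = (2 * s) ^ 2 - 4 * s' ^ 2 := by
    have : s ^ 2 + c ^ 2 = 1 := h1
    linear_combination (4 * s ^ 2) * h2 - (4 * s' ^ 2) * this
  rw [h3]
  nlinarith [sq_nonneg s']

lemma top_le {M n : ℕ} (h : n < M) : PC M M n ≤ ‖brf (vh M) n‖ ^ 2 := by
  rw [PC_top h, brf_norm h, ← Finset.prod_pow]
  apply Finset.prod_le_prod
  · intro j hj
    rw [Finset.mem_range] at hj
    exact (mul_pos (ah_pos (by omega)) (ah_pos (by omega))).le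
  · intro j _
    exact ah_mul_le M j

lemma prod_ah (M : ℕ) : ∏ j ∈ range M, ah M j = ∏ j ∈ range M, bh M j := by
  rw [← Finset.prod_range_reflect]
  apply Finset.prod_congr rfl
  intro j hj
  rw [Finset.mem_range] at hj
  exact ah_refl hj

lemma top_full (m : ℕ) : ∏ j ∈ range m, bh (m + 1) j ^ 2 ≤
    2 * ∏ j ∈ range m, (ah (m + 1) j * ah (m + 1) (j + 1)) := by
  have h1 := prod_ah (m + 1)
  have h2 : (∏ j ∈ range m, ah (m + 1) j) * ah (m + 1) m = ∏ j ∈ range (m + 1), ah (m + 1) j := by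
    rw [Finset.prod_range_succ]
  have h3 : (∏ j ∈ range m, ah (m + 1) (j + 1)) * ah (m + 1) 0 =
      ∏ j ∈ range (m + 1), ah (m + 1) j := by
    rw [Finset.prod_range_succ']
  have h4 : (∏ j ∈ range m, bh (m + 1) j) * bh (m + 1) m = ∏ j ∈ range (m + 1), bh (m + 1) j := by
    rw [Finset.prod_range_succ]
  have e0 : ah (m + 1) 0 = bh (m + 1) m := by
    have := ah_refl (M := m + 1) (j := m) (by omega)
    rw [← this]
    congr 1
    omega
  have em : ah (m + 1) m = bh (m + 1) 0 := by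
    have := ah_refl (M := m + 1) (j := 0) (by omega)
    rw [← this]
    rfl
  have hb : bh (m + 1) 0 ≤ 2 * ah (m + 1) 0 := by
    unfold ah bh
    have e : π * (((0 : ℕ) : ℝ) + 1) / Rh (m + 1) = 2 * (π * (((0 : ℕ) : ℝ) + 1 / 2) / Rh (m + 1)) := by
      ring
    rw [e, Real.sin_two_mul]
    have h5 : 0 < ah (m + 1) 0 := ah_pos (by omega)
    unfold ah at h5
    nlinarith [Real.cos_le_one (π * (((0 : ℕ) : ℝ) + 1 / 2) / Rh (m + 1))]
  rw [Finset.prod_mul_distrib, Finset.prod_pow]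
  set X := ∏ j ∈ range m, ah (m + 1) j
  set Y := ∏ j ∈ range m, ah (m + 1) (j + 1)
  set Z := ∏ j ∈ range m, bh (m + 1) j
  have hXp : 0 < X := Finset.prod_pos (fun j hj => ah_pos (by rw [Finset.mem_range] at hj; omega))
  have hYp : 0 < Y := Finset.prod_pos (fun j hj => ah_pos (by rw [Finset.mem_range] at hj; omega))
  have ha0 : 0 < ah (m + 1) 0 := ah_pos (by omega)
  rw [em] at h2
  rw [← e0] at h4
  -- X b0 = Z a0, Y a0 = Z a0
  have h5 : X * bh (m + 1) 0 = Z * ah (m + 1) 0 := by rw [h2, h4, h1]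
  have h6 : Y = Z := by
    have : Y * ah (m + 1) 0 = Z * ah (m + 1) 0 := by rw [h3, h4, h1]
    exact mul_right_cancel₀ ha0.ne' this
  have h7 : Z * ah (m + 1) 0 ≤ 2 * X * ah (m + 1) 0 := by
    rw [← h5]
    nlinarith
  have h8 : Z ≤ 2 * X := le_of_mul_le_mul_right h7 ha0
  rw [h6] at hYp ⊢
  nlinarith

lemma top_ge {M n : ℕ} (h : n < M) : 1 / 2 * ‖brf (vh M) n‖ ^ 2 ≤ PC M M n := by
  obtain ⟨m, rfl⟩ : ∃ m, M = m + 1 := ⟨M - 1, by omega⟩
  rw [PC_top h, brf_norm h, ← Finset.prod_pow]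
  have h1 := top_full m
  obtain ⟨d, rfl⟩ : ∃ d, m = n + d := ⟨m - n, by omega⟩
  rw [Finset.prod_range_add, Finset.prod_range_add] at h1
  have h2 : ∏ x ∈ range d, (ah (n + d + 1) (n + x) * ah (n + d + 1) (n + x + 1)) ≤
      ∏ x ∈ range d, bh (n + d + 1) (n + x) ^ 2 := by
    apply Finset.prod_le_prod
    · intro j hj
      rw [Finset.mem_range] at hj
      exact (mul_pos (ah_pos (by omega)) (ah_pos (by omega))).le
    · intro j _
      exact ah_mul_le _ _
  have h3 : 0 < ∏ x ∈ range d, bh (n + d + 1) (n + x) ^ 2 := by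
    apply Finset.prod_pos
    intro j hj
    rw [Finset.mem_range] at hj
    exact pow_pos (bh_pos (by omega)) 2
  have h4 : 0 ≤ ∏ j ∈ range n, (ah (n + d + 1) j * ah (n + d + 1) (j + 1)) := by
    apply Finset.prod_nonneg
    intro j hj
    rw [Finset.mem_range] at hj
    exact (mul_pos (ah_pos (by omega)) (ah_pos (by omega))).le
  set P := ∏ x ∈ range d, bh (n + d + 1) (n + x) ^ 2
  set Q := ∏ x ∈ range d, (ah (n + d + 1) (n + x) * ah (n + d + 1) (n + x + 1))
  set S := ∏ j ∈ range n, (ah (n + d + 1) j * ah (n + d + 1) (j + 1))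
  set T := ∏ j ∈ range n, bh (n + d + 1) j ^ 2
  have h5 : T * P ≤ 2 * S * P := by nlinarith [mul_le_mul_of_nonneg_left h2 h4]
  have h6 := le_of_mul_le_mul_right h5 h3
  linarith

/-! ## comparison of colours -/

/-- `‖{k}‖` -/
noncomputable def sh (M : ℕ) (k : ℤ) : ℝ := ‖br (vh M) k‖

lemma sh_eq (M : ℕ) (k : ℤ) : sh M k = 2 * |Real.sin (π * k / Rh M)| := by
  unfold sh
  rw [br_vh, norm_mul, norm_mul, Complex.norm_I, Complex.norm_real, Real.norm_eq_abs]
  norm_num

lemma PC_sh (M i n : ℕ) : PC M i n =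
    (∏ j ∈ range n, sh M (i + j + 1)) * ∏ j ∈ range n, sh M (i - j - 1) := by
  unfold PC
  rw [← Finset.prod_mul_distrib]
  apply Finset.prod_congr rfl
  intro j _
  rw [norm_mul]
  unfold sh
  congr 3
  ring

lemma PC_step (M i n : ℕ) : PC M (i + 1) n * (sh M (i + 1) * sh M (i - n)) =
    PC M i n * (sh M (i + n + 1) * sh M i) := by
  rw [PC_sh, PC_sh]
  have h1 : (∏ j ∈ range n, sh M (((i + 1 : ℕ) : ℤ) + j + 1)) * sh M (i + 1) =
      (∏ j ∈ range n, sh M (i + j + 1)) * sh M (i + n + 1) := by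
    rw [← Finset.prod_range_succ (fun j : ℕ => sh M ((i : ℤ) + j + 1)) n,
      Finset.prod_range_succ' (fun j : ℕ => sh M ((i : ℤ) + j + 1)) n]
    congr 1
    apply Finset.prod_congr rfl
    intro j _
    congr 1
    push_cast
    ring
  have h2 : (∏ j ∈ range n, sh M (((i + 1 : ℕ) : ℤ) - j - 1)) * sh M (i - n) =
      (∏ j ∈ range n, sh M (i - j - 1)) * sh M i := by
    have e1 : (∏ j ∈ range n, sh M (((i + 1 : ℕ) : ℤ) - j - 1)) * sh M (i - n) =
        ∏ j ∈ range (n + 1), sh M ((i : ℤ) - j) := by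
      rw [Finset.prod_range_succ]
      congr 1
      apply Finset.prod_congr rfl
      intro j _
      congr 1
      push_cast
      ring
    rw [e1, Finset.prod_range_succ']
    congr 1
    apply Finset.prod_congr rfl
    intro j _
    congr 1
    push_cast
    ring
  linear_combination ((∏ j ∈ range n, sh M (((i + 1 : ℕ) : ℤ) - j - 1)) * sh M (i - n)) * h1 +
    ((∏ j ∈ range n, sh M (i + j + 1)) * sh M (i + n + 1)) * h2

lemma sin_le_of {x y : ℝ} (hxy : x ≤ y) (h0 : -π ≤ x) (hs : 0 ≤ x + y) (h : x + y ≤ π)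
    (hy : y ≤ π) : Real.sin x ≤ Real.sin y := by
  have h1 : Real.sin y - Real.sin x = 2 * Real.sin ((y - x) / 2) * Real.cos ((y + x) / 2) :=
    Real.sin_sub_sin y x
  have h2 : 0 ≤ Real.sin ((y - x) / 2) :=
    Real.sin_nonneg_of_nonneg_of_le_pi (by linarith) (by linarith)
  have h3 : 0 ≤ Real.cos ((y + x) / 2) :=
    Real.cos_nonneg_of_neg_pi_div_two_le_of_le (by linarith [Real.pi_pos]) (by linarith)
  have := mul_nonneg (mul_nonneg two_pos.le h2) h3
  linarith

lemma PC_mono {M i n : ℕ} (h1 : n < i) (h2 : i < M) (h3 : M ≤ 2 * n) :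
    PC M i n ≤ PC M (i + 1) n := by
  have hR := Rh_pos M
  have hp := Real.pi_pos
  have hn1 : (n : ℝ) + 1 ≤ i := by exact_mod_cast h1
  have hi1 : (i : ℝ) + 1 ≤ M := by exact_mod_cast h2
  have hM : (M : ℝ) ≤ 2 * n := by exact_mod_cast h3
  have hn0 : (0 : ℝ) ≤ n := Nat.cast_nonneg n
  have hRM : Rh M = M + 1 / 2 := rfl
  -- values
  have e1 : sh M i = 2 * Real.sin (π * i / Rh M) := by
    rw [sh_eq, abs_of_nonneg]
    · push_cast
      rfl
    · apply Real.sin_nonneg_of_nonneg_of_le_pi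
      · positivity
      · rw [div_le_iff₀ hR, hRM]
        push_cast
        nlinarith
  have e2 : sh M (i + 1) = 2 * Real.sin (π * (i + 1) / Rh M) := by
    rw [sh_eq, abs_of_nonneg]
    · push_cast
      rfl
    · apply Real.sin_nonneg_of_nonneg_of_le_pi
      · positivity
      · rw [div_le_iff₀ hR, hRM]
        push_cast
        nlinarith
  have e3 : sh M (i - n) = 2 * Real.sin (π * (i - n) / Rh M) := by
    rw [sh_eq, abs_of_nonneg]
    · push_cast
      rfl
    · apply Real.sin_nonneg_of_nonneg_of_le_pi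
      · apply div_nonneg _ hR.le
        push_cast
        apply mul_nonneg hp.le
        linarith
      · rw [div_le_iff₀ hR, hRM]
        push_cast
        nlinarith
  have e4 : sh M (i + n + 1) = 2 * Real.sin (π * (i + n + 1 - Rh M) / Rh M) := by
    have e5 : Real.sin (π * (((i : ℤ) + n + 1 : ℤ) : ℝ) / Rh M) =
        - Real.sin (π * (i + n + 1 - Rh M) / Rh M) := by
      rw [← Real.sin_add_pi]
      congr 1
      push_cast
      field_simp
      ring
    rw [sh_eq, e5, abs_neg, abs_of_nonneg]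
    apply Real.sin_nonneg_of_nonneg_of_le_pi
    · apply div_nonneg _ hR.le
      apply mul_nonneg hp.le
      rw [hRM]
      linarith
    · rw [div_le_iff₀ hR]
      apply mul_le_mul_of_nonneg_left _ hp.le
      rw [hRM]
      linarith
  -- comparison
  have c1 : sh M (i + 1) ≤ sh M i := by
    rw [e1, e2]
    apply mul_le_mul_of_nonneg_left _ two_pos.le
    rw [← Real.sin_pi_sub (π * (i + 1) / Rh M), ← Real.sin_pi_sub (π * i / Rh M)]
    apply sin_le_of
    · have : π * i / Rh M ≤ π * (i + 1) / Rh M := by gcongr; linarith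
      linarith
    · have : π * (i + 1) / Rh M ≤ π * 2 := by
        rw [div_le_iff₀ hR, hRM]
        nlinarith
      linarith
    · have : π * (i + 1) / Rh M + π * i / Rh M ≤ π * 2 := by
        rw [← add_div, div_le_iff₀ hR, hRM]
        nlinarith
      linarith
    · have : π * 1 ≤ π * (i + 1) / Rh M + π * i / Rh M := by
        rw [← add_div, le_div_iff₀ hR, hRM]
        nlinarith
      linarith
    · have : 0 ≤ π * i / Rh M := by positivity
      linarith
  have c2 : sh M (i - n) ≤ sh M (i + n + 1) := by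
    rw [e3, e4]
    apply mul_le_mul_of_nonneg_left _ two_pos.le
    apply sin_le_of
    · apply div_le_div_of_nonneg_right _ hR.le
      apply mul_le_mul_of_nonneg_left _ hp.le
      rw [hRM]
      linarith
    · have : 0 ≤ π * (i - n) / Rh M := div_nonneg (mul_nonneg hp.le (by linarith)) hR.le
      linarith
    · rw [← add_div]
      apply div_nonneg _ hR.le
      rw [← mul_add]
      apply mul_nonneg hp.le
      rw [hRM]
      linarith
    · rw [← add_div, div_le_iff₀ hR, ← mul_add]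
      apply mul_le_mul_of_nonneg_left _ hp.le
      rw [hRM]
      linarith
    · rw [div_le_iff₀ hR]
      apply mul_le_mul_of_nonneg_left _ hp.le
      rw [hRM]
      linarith
  have hs := PC_step M i n
  have p1 : 0 < sh M (i + 1) := by
    unfold sh
    rw [norm_pos_iff]
    exact br_vh_ne (by omega) (by omega)
  have p2 : 0 < sh M (i - n) := by
    unfold sh
    rw [norm_pos_iff]
    exact br_vh_ne (by omega) (by omega)
  have p3 : 0 ≤ PC M i n := by
    unfold PC
    exact Finset.prod_nonneg (fun j _ => norm_nonneg _)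
  have h5 : PC M i n * (sh M (i + 1) * sh M (i - n)) ≤
      PC M (i + 1) n * (sh M (i + 1) * sh M (i - n)) := by
    rw [hs]
    apply mul_le_mul_of_nonneg_left _ p3
    calc sh M (i + 1) * sh M (i - n) ≤ sh M i * sh M (i + n + 1) :=
          mul_le_mul c1 c2 p2.le (p1.le.trans c1)
      _ = sh M (i + n + 1) * sh M i := by ring
  exact le_of_mul_le_mul_right h5 (mul_pos p1 p2)

lemma PC_le_top {M n : ℕ} (h3 : M ≤ 2 * n) : ∀ d i : ℕ, i + d = M → n < i →
    PC M i n ≤ PC M M n := by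
  intro d
  induction d with
  | zero =>
    intro i hi _
    rw [show i = M by omega]
  | succ d ih =>
    intro i hi hn
    exact (PC_mono hn (by omega) h3).trans (ih (i + 1) (by omega) (by omega))

theorem colbig : S_COLBIG := by
  refine ⟨1 / 2, by norm_num, ?_⟩
  intro M i n h1 h2
  refine ⟨fun h3 => ?_, top_ge (by omega)⟩
  exact (PC_le_top h3 (M - i) i (by omega) h1).trans (top_le (by omega))

end Pool.Agent.W505.TV
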