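import Pool.Agent.W505.TV.Col
import Pool.Agent.H776R3.EvenVol.TaskL

/-! `S_COLSMALL`: a crude bound for the colour dependence. -/

set_option autoImplicit false

namespace Pool.Agent.W505.TV

open Filter Finset EvenVol Pool.Agent.H112R4.VL Pool.Agent.W709.VC Pool.Agent.W707.TV
open EvenVol.LobIneq
open scoped Real Topology ComplexConjugate

/-! ## Hermite-Hadamard inequalities for `g = - log (2 sin)` -/

lemma g_add_eq {m s : ℝ} (h1 : 0 < Real.sin (m + s)) (h2 : 0 < Real.sin (m - s)) :
    GapVol.g (m + s) + GapVol.g (m - s) = -Real.log (2 * (Real.cos (2 * s) - Real.cos (2 * m))) := by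
  unfold GapVol.g
  rw [← neg_add, ← Real.log_mul (by positivity) (by positivity)]
  congr 2
  rw [Real.sin_add, Real.sin_sub, Real.cos_two_mul, Real.cos_two_mul]
  have h3 := Real.sin_sq_add_cos_sq m
  have h4 := Real.sin_sq_add_cos_sq s
  linear_combination (4 * Real.cos s ^ 2) * h3 - (4 * Real.cos m ^ 2) * h4

lemma int_symm (m h : ℝ) : GapVol.lob (m + h) - GapVol.lob (m - h) =
    ∫ s in (0 : ℝ)..h, (GapVol.g (m + s) + GapVol.g (m - s)) := by
  rw [intervalIntegral.integral_add (g_int_add m 0 h) (g_int_sub m 0 h),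
    intervalIntegral.integral_comp_add_left GapVol.g m,
    intervalIntegral.integral_comp_sub_left GapVol.g m, ← GapVol.lob_sub, ← GapVol.lob_sub]
  ring_nf

lemma sin_pos' {x : ℝ} (h0 : 0 < x) (h1 : x < π) : 0 < Real.sin x :=
  Real.sin_pos_of_pos_of_lt_pi h0 h1

/-- midpoint -/
lemma hh_mid {m h : ℝ} (hh : 0 < h) (h0 : 0 ≤ m - h) (h1 : m + h ≤ π) :
    2 * h * GapVol.g m ≤ GapVol.lob (m + h) - GapVol.lob (m - h) := by
  rw [int_symm]
  have e : 2 * h * GapVol.g m = ∫ _s in (0 : ℝ)..h, (2 * GapVol.g m) := by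
    rw [intervalIntegral.integral_const, smul_eq_mul]
    ring
  rw [e]
  apply intervalIntegral.integral_mono_on_of_le_Ioo hh.le intervalIntegrable_const
    ((g_int_add m 0 h).add (g_int_sub m 0 h))
  intro s hs
  have p1 : 0 < Real.sin (m + s) := sin_pos' (by linarith [hs.1]) (by linarith [hs.2])
  have p2 : 0 < Real.sin (m - s) := sin_pos' (by linarith [hs.2]) (by linarith [hs.1])
  have p3 : 0 < Real.sin (m + 0) := sin_pos' (by linarith [hs.1]) (by linarith [hs.2])
  have p4 : 0 < Real.sin (m - 0) := sin_pos' (by linarith [hs.1]) (by linarith [hs.2])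
  have e1 := g_add_eq p1 p2
  have e2 := g_add_eq p3 p4
  rw [add_zero, sub_zero, mul_zero, Real.cos_zero] at e2
  show 2 * GapVol.g m ≤ GapVol.g (m + s) + GapVol.g (m - s)
  rw [e1, two_mul, e2]
  have p5 : 0 < 2 * (Real.cos (2 * s) - Real.cos (2 * m)) := by
    have : 2 * (Real.cos (2 * s) - Real.cos (2 * m)) =
        (2 * Real.sin (m + s)) * (2 * Real.sin (m - s)) := by
      rw [Real.sin_add, Real.sin_sub, Real.cos_two_mul, Real.cos_two_mul]
      have h3 := Real.sin_sq_add_cos_sq m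
      have h4 := Real.sin_sq_add_cos_sq s
      linear_combination (-4 * Real.cos s ^ 2) * h3 + (4 * Real.cos m ^ 2) * h4
    rw [this]
    positivity
  apply neg_le_neg
  apply Real.log_le_log p5
  linarith [Real.cos_le_one (2 * s)]

/-- trapezoid -/
lemma hh_trap {m h : ℝ} (hh : 0 < h) (h0 : 0 < m - h) (h1 : m + h < π) :
    GapVol.lob (m + h) - GapVol.lob (m - h) ≤ h * (GapVol.g (m + h) + GapVol.g (m - h)) := by
  rw [int_symm]
  have e : h * (GapVol.g (m + h) + GapVol.g (m - h)) =
      ∫ _s in (0 : ℝ)..h, (GapVol.g (m + h) + GapVol.g (m - h)) := by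
    rw [intervalIntegral.integral_const, smul_eq_mul]
    ring
  rw [e]
  apply intervalIntegral.integral_mono_on_of_le_Ioo hh.le
    ((g_int_add m 0 h).add (g_int_sub m 0 h)) intervalIntegrable_const
  intro s hs
  have p1 : 0 < Real.sin (m + s) := sin_pos' (by linarith [hs.1]) (by linarith [hs.2])
  have p2 : 0 < Real.sin (m - s) := sin_pos' (by linarith [hs.2]) (by linarith [hs.1])
  have p3 : 0 < Real.sin (m + h) := sin_pos' (by linarith [hs.1]) (by linarith [hs.2])
  have p4 : 0 < Real.sin (m - h) := sin_pos' (by linarith [hs.1]) (by linarith [hs.2])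
  have e1 := g_add_eq p1 p2
  have e2 := g_add_eq p3 p4
  show GapVol.g (m + s) + GapVol.g (m - s) ≤ GapVol.g (m + h) + GapVol.g (m - h)
  rw [e1, e2]
  have p5 : 0 < 2 * (Real.cos (2 * h) - Real.cos (2 * m)) := by
    have : 2 * (Real.cos (2 * h) - Real.cos (2 * m)) =
        (2 * Real.sin (m + h)) * (2 * Real.sin (m - h)) := by
      rw [Real.sin_add, Real.sin_sub, Real.cos_two_mul, Real.cos_two_mul]
      have h3 := Real.sin_sq_add_cos_sq m
      have h4 := Real.sin_sq_add_cos_sq h
      linear_combination (-4 * Real.cos h ^ 2) * h3 + (4 * Real.cos m ^ 2) * h4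
    rw [this]
    positivity
  apply neg_le_neg
  apply Real.log_le_log p5
  have : Real.cos (2 * h) ≤ Real.cos (2 * s) := by
    apply Real.cos_le_cos_of_nonneg_of_le_pi (by linarith [hs.1]) (by linarith) (by linarith [hs.2])
  linarith

lemma g_ge (t : ℝ) : -Real.log 2 ≤ GapVol.g t := by
  rw [g_eq_abs]
  apply neg_le_neg
  rcases eq_or_ne (Real.sin t) 0 with h | h
  · rw [h, mul_zero, abs_zero, Real.log_zero]
    exact Real.log_nonneg (by norm_num)
  · apply Real.log_le_log (abs_pos.2 (mul_ne_zero two_ne_zero h))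
    rw [abs_mul, abs_two]
    linarith [Real.abs_sin_le_one t]

/-- Riemann sums from above -/
lemma sum_up {δ : ℝ} (hδ : 0 < δ) (k : ℕ) (h : (k + 1 / 2) * δ ≤ π) :
    δ * ∑ j ∈ range k, GapVol.g ((j + 1) * δ) ≤
      GapVol.lob ((k + 1 / 2) * δ) - GapVol.lob (δ / 2) := by
  induction k with
  | zero =>
    simp only [Finset.range_zero, Finset.sum_empty, mul_zero, Nat.cast_zero]
    rw [show (0 + 1 / 2 : ℝ) * δ = δ / 2 by ring, sub_self]
  | succ k ih =>
    push_cast at h
    have h1 := ih (by nlinarith)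
    have h2 := hh_mid (m := (k + 1) * δ) (h := δ / 2) (by linarith) (by
      have : (0 : ℝ) ≤ k := Nat.cast_nonneg k
      nlinarith) (by nlinarith)
    rw [show (k + 1) * δ + δ / 2 = (k + 1 + 1 / 2) * δ by ring,
      show (k + 1) * δ - δ / 2 = (k + 1 / 2) * δ by ring, show 2 * (δ / 2) = δ by ring] at h2
    rw [Finset.sum_range_succ, mul_add]
    push_cast
    linarith

/-- Riemann sums from below -/
lemma sum_lo {δ : ℝ} (hδ : 0 < δ) (k : ℕ) (h : (k + 1) * δ < π) :
    GapVol.lob ((k + 1) * δ) - GapVol.lob δ + δ / 2 * (GapVol.g δ + GapVol.g ((k + 1) * δ)) ≤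
      δ * ∑ j ∈ range (k + 1), GapVol.g ((j + 1) * δ) := by
  induction k with
  | zero =>
    rw [Finset.sum_range_succ, Finset.range_zero, Finset.sum_empty, Nat.cast_zero]
    rw [zero_add, one_mul, sub_self, zero_add]
    linarith
  | succ k ih =>
    push_cast at h
    have h1 := ih (by nlinarith)
    have h2 := hh_trap (m := (k + 1 + 1 / 2) * δ) (h := δ / 2) (by linarith) (by
      have : (0 : ℝ) ≤ k := Nat.cast_nonneg k
      nlinarith) (by nlinarith)
    rw [show (k + 1 + 1 / 2) * δ + δ / 2 = (k + 1 + 1) * δ by ring,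
      show (k + 1 + 1 / 2) * δ - δ / 2 = (k + 1) * δ by ring] at h2
    rw [Finset.sum_range_succ, mul_add]
    push_cast
    linarith

/-! ## factorials -/

lemma log_brf {M k : ℕ} (h : k ≤ M) : Real.log ‖brf (vh M) k‖ =
    -∑ j ∈ range k, GapVol.g ((j + 1) * (π / Rh M)) := by
  rw [← Finset.sum_neg_distrib]
  unfold brf
  rw [norm_prod, Real.log_prod]
  · apply Finset.sum_congr rfl
    intro j _
    rw [g_eq_abs, neg_neg]
    have := sh_eq M ((j : ℤ) + 1)
    unfold sh at this
    rw [this]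
    push_cast
    rw [abs_mul, abs_two, show π * ((j : ℝ) + 1) / Rh M = (j + 1) * (π / Rh M) by ring]
  · intro j hj
    rw [Finset.mem_range] at hj
    rw [norm_ne_zero_iff]
    exact br_vh_ne (by omega) (by omega)

/-- the error term -/
noncomputable def er (δ : ℝ) : ℝ := |GapVol.lob (δ / 2)| + |GapVol.lob δ| + δ * Real.log 2

lemma er_nonneg {δ : ℝ} (h : 0 ≤ δ) : 0 ≤ er δ := by
  unfold er
  have := Real.log_nonneg (show (1 : ℝ) ≤ 2 by norm_num)
  positivity

lemma er_tendsto : Tendsto (fun M : ℕ => er (π / Rh M)) atTop (𝓝 0) := by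
  have h1 : Tendsto (fun M : ℕ => Rh M) atTop atTop := by
    unfold Rh
    exact tendsto_atTop_add_const_right _ _ tendsto_natCast_atTop_atTop
  have h2 : Tendsto (fun M : ℕ => π / Rh M) atTop (𝓝 0) := h1.const_div_atTop π
  have hc : Continuous er := by
    unfold er
    have := GapVol.lob_cont
    fun_prop
  have h3 := (hc.tendsto 0).comp h2
  have h0 : er 0 = 0 := by
    unfold er
    simp [GapVol.lob_zero]
  rw [h0] at h3
  exact h3

lemma del_pos (M : ℕ) : 0 < π / Rh M := div_pos Real.pi_pos (Rh_pos M)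

lemma sum_bd_up {M k : ℕ} (h : k ≤ M) :
    π / Rh M * ∑ j ∈ range k, GapVol.g ((j + 1) * (π / Rh M)) ≤
      GapVol.lob (π / 6) + er (π / Rh M) := by
  have hR := Rh_pos M
  have hk : (k : ℝ) ≤ M := by exact_mod_cast h
  have h1 := sum_up (del_pos M) k (by
    rw [← mul_div_assoc, div_le_iff₀ hR]
    unfold Rh
    nlinarith [Real.pi_pos])
  have h2 := abs_lob_le ((k + 1 / 2) * (π / Rh M))
  have h3 := neg_abs_le (GapVol.lob (π / Rh M / 2))
  have h4 := le_abs_self (GapVol.lob ((k + 1 / 2) * (π / Rh M)))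
  unfold er
  have h5 := Real.log_nonneg (show (1 : ℝ) ≤ 2 by norm_num)
  have h6 := mul_nonneg (del_pos M).le h5
  have h7 := abs_nonneg (GapVol.lob (π / Rh M))
  linarith

lemma sum_bd_lo {M k : ℕ} (h : k ≤ M) :
    -(GapVol.lob (π / 6) + er (π / Rh M)) ≤
    π / Rh M * ∑ j ∈ range k, GapVol.g ((j + 1) * (π / Rh M)) := by
  have hR := Rh_pos M
  have hd := del_pos M
  have h5 := Real.log_nonneg (show (1 : ℝ) ≤ 2 by norm_num)
  rcases k with _ | k
  · rw [Finset.range_zero, Finset.sum_empty, mul_zero]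
    have := er_nonneg hd.le
    have := lob_six_pos
    linarith
  · have hk : (k : ℝ) + 1 ≤ M := by exact_mod_cast h
    have h1 := sum_lo hd k (by
      rw [← mul_div_assoc, div_lt_iff₀ hR]
      unfold Rh
      nlinarith [Real.pi_pos])
    have h2 := abs_lob_le ((k + 1) * (π / Rh M))
    have h3 := le_abs_self (GapVol.lob (π / Rh M))
    have h4 := neg_abs_le (GapVol.lob ((k + 1) * (π / Rh M)))
    have h6 := g_ge (π / Rh M)
    have h7 := g_ge ((k + 1) * (π / Rh M))
    have h8 := abs_nonneg (GapVol.lob (π / Rh M / 2))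
    unfold er
    have h9 : -(π / Rh M * Real.log 2) ≤
        π / Rh M / 2 * (GapVol.g (π / Rh M) + GapVol.g ((k + 1) * (π / Rh M))) := by
      nlinarith
    linarith

/-- the full product is small -/
lemma sum_mid {M : ℕ} : |π / Rh M * ∑ j ∈ range M, GapVol.g ((j + 1) * (π / Rh M))| ≤
    er (π / Rh M) := by
  have hR := Rh_pos M
  have hd := del_pos M
  have h5 := Real.log_nonneg (show (1 : ℝ) ≤ 2 by norm_num)
  have e1 : ((M : ℝ) + 1 / 2) * (π / Rh M) = π := by
    unfold Rh at hR ⊢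
    field_simp
  have h6 := mul_nonneg hd.le h5
  have h7 := abs_nonneg (GapVol.lob (π / Rh M))
  rw [abs_le]
  constructor
  · rcases M with _ | k
    · rw [Finset.range_zero, Finset.sum_empty, mul_zero]
      have := er_nonneg hd.le
      linarith
    · have h1 := sum_lo hd k (by
        rw [← mul_div_assoc, div_lt_iff₀ hR]
        unfold Rh
        push_cast
        nlinarith [Real.pi_pos])
      have h2 : GapVol.lob ((k + 1) * (π / Rh (k + 1))) = -GapVol.lob (π / Rh (k + 1) / 2) := by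
        push_cast at e1
        have e2 : (k + 1) * (π / Rh (k + 1)) = -(π / Rh (k + 1) / 2) + π := by
          linarith
        rw [e2, lob_per, lob_neg]
      have h3 := le_abs_self (GapVol.lob (π / Rh (k + 1)))
      have h4 := le_abs_self (GapVol.lob (π / Rh (k + 1) / 2))
      have h6 := g_ge (π / Rh (k + 1))
      have h7 := g_ge ((k + 1) * (π / Rh (k + 1)))
      rw [h2] at h1
      unfold er
      have h9 : -(π / Rh (k + 1) * Real.log 2) ≤ π / Rh (k + 1) / 2 *
          (GapVol.g (π / Rh (k + 1)) + GapVol.g ((k + 1) * (π / Rh (k + 1)))) := by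
        nlinarith
      linarith
  · have h1 := sum_up hd M (by rw [e1])
    rw [e1, lob_pi] at h1
    have h3 := neg_abs_le (GapVol.lob (π / Rh M / 2))
    unfold er
    linarith

lemma log_brf_abs {M k : ℕ} (h : k ≤ M) :
    |Real.log ‖brf (vh M) k‖| ≤ Rh M / π * (GapVol.lob (π / 6) + er (π / Rh M)) := by
  have hR := Rh_pos M
  have hp := Real.pi_pos
  rw [log_brf h, abs_neg]
  have h1 : |π / Rh M * ∑ j ∈ range k, GapVol.g ((j + 1) * (π / Rh M))| ≤
      GapVol.lob (π / 6) + er (π / Rh M) := abs_le.2 ⟨sum_bd_lo h, sum_bd_up h⟩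
  rw [abs_mul, abs_of_pos (del_pos M)] at h1
  have e : Rh M / π * (π / Rh M) = 1 := by field_simp
  calc |∑ j ∈ range k, GapVol.g ((j + 1) * (π / Rh M))| =
      Rh M / π * (π / Rh M * |∑ j ∈ range k, GapVol.g ((j + 1) * (π / Rh M))|) := by
        rw [← mul_assoc, e, one_mul]
    _ ≤ _ := mul_le_mul_of_nonneg_left h1 (by positivity)

lemma log_brf_mid (M : ℕ) : |Real.log ‖brf (vh M) M‖| ≤ Rh M / π * er (π / Rh M) := by
  have hR := Rh_pos M
  have hp := Real.pi_pos
  rw [log_brf le_rfl, abs_neg]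
  have h1 := sum_mid (M := M)
  rw [abs_mul, abs_of_pos (del_pos M)] at h1
  have e : Rh M / π * (π / Rh M) = 1 := by field_simp
  calc |∑ j ∈ range M, GapVol.g ((j + 1) * (π / Rh M))| =
      Rh M / π * (π / Rh M * |∑ j ∈ range M, GapVol.g ((j + 1) * (π / Rh M))|) := by
        rw [← mul_assoc, e, one_mul]
    _ ≤ _ := mul_le_mul_of_nonneg_left h1 (by positivity)

lemma brf_succ (M k : ℕ) : ‖brf (vh M) (k + 1)‖ = ‖brf (vh M) k‖ * sh M (k + 1) := by
  unfold brf sh
  rw [Finset.prod_range_succ, norm_mul]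

lemma sh_refl (M : ℕ) (k : ℤ) : sh M (2 * M + 1 - k) = sh M k := by
  have hR := Rh_pos M
  rw [sh_eq, sh_eq]
  congr 1
  have : π * ((2 * (M : ℤ) + 1 - k : ℤ) : ℝ) / Rh M = 2 * π - π * k / Rh M := by
    push_cast
    rw [eq_sub_iff_add_eq, ← add_div, div_eq_iff hR.ne']
    unfold Rh
    ring
  rw [this, Real.sin_two_pi_sub, abs_neg]

lemma brf_sym {M : ℕ} : ∀ l : ℕ, l ≤ M →
    ‖brf (vh M) (M + l)‖ * ‖brf (vh M) (M - l)‖ = ‖brf (vh M) M‖ ^ 2 := by
  intro l
  induction l with
  | zero =>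
    intro _
    rw [add_zero, Nat.sub_zero]
    ring
  | succ l ih =>
    intro h
    have h1 := ih (by omega)
    have h2 : ‖brf (vh M) (M - l)‖ = ‖brf (vh M) (M - (l + 1))‖ * sh M (M - l) := by
      have := brf_succ M (M - (l + 1))
      rw [show M - (l + 1) + 1 = M - l by omega] at this
      rw [this]
      congr 2
      have : ((M - (l + 1) : ℕ) : ℤ) = M - (l + 1) := by omega
      rw [this]
      ring
    have h3 : sh M (((M + l : ℕ) : ℤ) + 1) = sh M (M - l) := by
      rw [← sh_refl M ((M : ℤ) - l)]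
      congr 1
      push_cast
      ring
    rw [← add_assoc, brf_succ, h3, ← h1, h2]
    ring

lemma brf_pos {M k : ℕ} (h : k < 2 * M + 1) : 0 < ‖brf (vh M) k‖ := by
  rw [norm_pos_iff]
  exact brf_vh_ne h

/-- the crude bound for all factorials -/
lemma log_brf_crude {M k : ℕ} (h : k ≤ 2 * M) :
    |Real.log ‖brf (vh M) k‖| ≤ Rh M / π * (GapVol.lob (π / 6) + 3 * er (π / Rh M)) := by
  have hR := Rh_pos M
  have hp := Real.pi_pos
  have he := er_nonneg (del_pos M).le
  have hq : 0 ≤ Rh M / π * er (π / Rh M) := by positivity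
  rcases le_total k M with hk | hk
  · refine (log_brf_abs hk).trans ?_
    nlinarith
  · obtain ⟨l, rfl⟩ : ∃ l, k = M + l := ⟨k - M, by omega⟩
    have h1 := brf_sym (M := M) l (by omega)
    have h2 := congrArg Real.log h1
    rw [Real.log_mul (brf_pos (by omega)).ne' (brf_pos (by omega)).ne', Real.log_pow] at h2
    have h3 := abs_le.1 (log_brf_abs (M := M) (k := M - l) (by omega))
    have h4 := abs_le.1 (log_brf_mid M)
    rw [abs_le]
    push_cast at h2
    constructor <;> nlinarith [h3.1, h3.2, h4.1, h4.2]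

/-! ## the colour factor -/

lemma brf_sh (M k : ℕ) : ‖brf (vh M) k‖ = ∏ j ∈ range k, sh M (j + 1) := by
  unfold brf sh
  rw [norm_prod]

lemma PC_quot {M i n : ℕ} (h : n < i) :
    PC M i n * (‖brf (vh M) (i - 1 - n)‖ * sh M i) = ‖brf (vh M) (i + n)‖ := by
  obtain ⟨d, rfl⟩ : ∃ d, i = d + n + 1 := ⟨i - 1 - n, by omega⟩
  rw [PC_sh]
  have h1 : ‖brf (vh M) (d + n + 1 + n)‖ = ‖brf (vh M) (d + n + 1)‖ *
      ∏ j ∈ range n, sh M (((d + n + 1 : ℕ) : ℤ) + j + 1) := by
    rw [brf_sh, brf_sh, Finset.prod_range_add]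
    congr 1
  have h2 : ‖brf (vh M) (d + n)‖ = ‖brf (vh M) d‖ *
      ∏ j ∈ range n, sh M (((d + n + 1 : ℕ) : ℤ) - j - 1) := by
    rw [brf_sh, brf_sh, Finset.prod_range_add]
    congr 1
    rw [← Finset.prod_range_reflect]
    apply Finset.prod_congr rfl
    intro j hj
    rw [Finset.mem_range] at hj
    congr 1
    omega
  have h3 := brf_succ M (d + n)
  rw [show d + n + 1 - 1 - n = d by omega, h1, h3, h2]
  have h4 : sh M ((d + n : ℕ) + 1 : ℤ) = sh M ((d + n + 1 : ℕ) : ℤ) := by
    congr 1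
  rw [h4]
  ring

lemma sh_ge {M i : ℕ} (h1 : 1 ≤ i) (h2 : i ≤ M) : 2 / Rh M ≤ sh M i := by
  have hR := Rh_pos M
  have hp := Real.pi_pos
  have hi : (1 : ℝ) ≤ i := by exact_mod_cast h1
  have hi2 : (i : ℝ) ≤ M := by exact_mod_cast h2
  have hRM : Rh M = M + 1 / 2 := rfl
  rw [sh_eq]
  have h3 : 1 / Rh M ≤ Real.sin (π * ((i : ℤ) : ℝ) / Rh M) := by
    push_cast
    rcases le_total (π * i / Rh M) (π / 2) with h | h
    · have h4 := Real.mul_le_sin (x := π * i / Rh M) (by positivity) h
      have h5 : 2 / π * (π * i / Rh M) = 2 * i / Rh M := by field_simp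
      rw [h5] at h4
      refine le_trans ?_ h4
      apply div_le_div_of_nonneg_right _ hR.le
      linarith
    · have h6 : π * i / Rh M ≤ π := by
        rw [div_le_iff₀ hR, hRM]
        nlinarith
      have h4 := Real.mul_le_sin (x := π - π * i / Rh M) (by linarith) (by linarith)
      have h5 : 2 / π * (π - π * i / Rh M) = 2 * (Rh M - i) / Rh M := by field_simp
      rw [h5, Real.sin_pi_sub] at h4
      refine le_trans ?_ h4
      apply div_le_div_of_nonneg_right _ hR.le
      rw [hRM]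
      linarith
  have h7 : 0 < 1 / Rh M := by positivity
  rw [abs_of_pos (lt_of_lt_of_le h7 h3)]
  have : 2 / Rh M = 2 * (1 / Rh M) := by ring
  rw [this]
  linarith

theorem colsmall : S_COLSMALL := by
  intro ε hε
  have hp := Real.pi_pos
  have hp3 := Real.pi_gt_three
  set e := ε / 11 with he
  have he0 : 0 < e := by positivity
  have h1 : ∀ᶠ M : ℕ in atTop, er (π / Rh M) ≤ e := by
    have := er_tendsto.eventually (gt_mem_nhds he0)
    filter_upwards [this] with M hM
    exact hM.le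
  have h2 : ∀ᶠ M : ℕ in atTop, Real.log (Rh M) ≤ e * Rh M := by
    have hlo := Real.isLittleO_log_id_atTop.def he0
    have ht : Tendsto (fun M : ℕ => Rh M) atTop atTop := by
      unfold Rh
      exact tendsto_atTop_add_const_right _ _ tendsto_natCast_atTop_atTop
    filter_upwards [ht.eventually hlo] with M hM
    rw [id, Real.norm_eq_abs, Real.norm_eq_abs, abs_of_pos (Rh_pos M)] at hM
    exact (le_abs_self _).trans hM
  have h3 : ∀ᶠ M : ℕ in atTop, 2 / π * GapVol.lob (π / 6) ≤ e * M := by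
    have ht : Tendsto (fun M : ℕ => e * (M : ℝ)) atTop atTop :=
      tendsto_natCast_atTop_atTop.const_mul_atTop he0
    exact ht.eventually (eventually_ge_atTop _)
  filter_upwards [h1, h2, h3, eventually_ge_atTop 1] with M g1 g2 g3 g4
  intro i n hn hi _
  have hR := Rh_pos M
  have hRM : Rh M = M + 1 / 2 := rfl
  have hM1 : (1 : ℝ) ≤ M := by exact_mod_cast g4
  have q := PC_quot (M := M) hn
  have p1 : 0 < ‖brf (vh M) (i - 1 - n)‖ := brf_pos (by omega)
  have p2 : 0 < ‖brf (vh M) (i + n)‖ := brf_pos (by omega)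
  have p3 : 0 < ‖brf (vh M) n‖ := brf_pos (by omega)
  have p4 : 0 < sh M i := lt_of_lt_of_le (by positivity) (sh_ge (by omega) hi)
  have p5 : 0 < PC M i n := by
    by_contra hcon
    push Not at hcon
    have := mul_nonpos_of_nonpos_of_nonneg hcon (mul_pos p1 p4).le
    rw [q] at this
    linarith
  have hl := congrArg Real.log q
  rw [Real.log_mul p5.ne' (mul_pos p1 p4).ne', Real.log_mul p1.ne' p4.ne'] at hl
  have b1 := abs_le.1 (log_brf_crude (M := M) (k := i - 1 - n) (by omega))
  have b2 := abs_le.1 (log_brf_crude (M := M) (k := i + n) (by omega))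
  have b3 := abs_le.1 (log_brf_crude (M := M) (k := n) (by omega))
  have b4 : -Real.log (Rh M) ≤ Real.log (sh M i) := by
    rw [← Real.log_inv]
    apply Real.log_le_log (by positivity)
    refine le_trans ?_ (sh_ge (by omega) hi)
    rw [inv_eq_one_div]
    apply div_le_div_of_nonneg_right _ hR.le
    norm_num
  set B := Rh M / π * (GapVol.lob (π / 6) + 3 * er (π / Rh M)) with hB
  have hlog : Real.log (PC M i n) ≤ 2 * Real.log ‖brf (vh M) n‖ + (4 * B + Real.log (Rh M)) := by
    linarith [b1.1, b1.2, b2.1, b2.2, b3.1, b3.2]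
  have hfin : 4 * B + Real.log (Rh M) ≤
      M / (2 * π) * (8 * GapVol.lob (π / 6)) + ε * M := by
    have e1 : 4 * B = M / (2 * π) * (8 * GapVol.lob (π / 6)) + 2 / π * GapVol.lob (π / 6) +
        12 * Rh M * er (π / Rh M) / π := by
      rw [hB, hRM]
      field_simp
      ring
    have e2 : 12 * Rh M * er (π / Rh M) / π ≤ 4 * Rh M * e := by
      rw [div_le_iff₀ hp]
      have := mul_le_mul_of_nonneg_left g1 (show 0 ≤ 12 * Rh M by positivity)
      have h5 : 0 ≤ Rh M * e := by positivity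
      nlinarith
    have e3 : Rh M ≤ 2 * M := by
      rw [hRM]
      linarith
    have e4 : Rh M * e ≤ 2 * M * e := mul_le_mul_of_nonneg_right e3 he0.le
    have e5 : ε = 11 * e := by
      rw [he]
      ring
    rw [e1, e5]
    nlinarith
  have e6 : PC M i n = Real.exp (Real.log (PC M i n)) := (Real.exp_log p5).symm
  have e7 : ‖brf (vh M) n‖ ^ 2 = Real.exp (2 * Real.log ‖brf (vh M) n‖) := by
    rw [two_mul, Real.exp_add, Real.exp_log p3]
    ring
  rw [e6, e7, ← Real.exp_add]
  apply Real.exp_le_exp.2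
  linarith

end Pool.Agent.W505.TV
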