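import Pool.Agent.W708.VC.Lap
import Pool.Agent.W707.TV.Path

/-! The pointwise limit at the saddle point, half-integer version. -/

set_option autoImplicit false

namespace Pool.Agent.W505.TV

open Filter Finset Pool.Agent.W709.VC Pool.Agent.W708.VC Pool.Agent.W707.TV MeasureTheory
open scoped Real Topology

/-- the angles -/
noncomputable def ph (M j : ℕ) : ℝ := 2 * π * (j + 1) / Rh M

theorem cellR (g : ℝ → ℂ) (L : ℝ) (hg : Continuous g)
    (hL : ∀ x y, ‖g x - g y‖ ≤ L * |x - y|) (hL0 : 0 ≤ L) (a h : ℝ) (hh : 0 ≤ h) :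
    ‖(h : ℂ) * g (a + h) - ∫ x in a..(a + h), g x‖ ≤ L * h * h := by
  have h1 : (h : ℂ) * g (a + h) = ∫ x in a..(a + h), g (a + h) := by
    rw [intervalIntegral.integral_const]
    simp
  rw [h1, ← intervalIntegral.integral_sub (by simp) (hg.intervalIntegrable _ _)]
  have := intervalIntegral.norm_integral_le_of_norm_le_const (a := a) (b := a + h)
    (f := fun x => g (a + h) - g x) (C := L * h) (by
      intro x hx
      rw [Set.uIoc_of_le (by linarith)] at hx
      refine (hL _ _).trans (mul_le_mul_of_nonneg_left ?_ hL0)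
      rw [abs_le]
      constructor <;> linarith [hx.1, hx.2])
  refine this.trans (le_of_eq ?_)
  rw [add_sub_cancel_left, abs_of_nonneg hh]

theorem Rh_half (M : ℕ) : 1 / 2 ≤ Rh M := by
  unfold Rh
  have : (0 : ℝ) ≤ M := Nat.cast_nonneg M
  linarith

theorem riemannR (g : ℝ → ℂ) (B L : ℝ) (hg : Continuous g) (hB : ∀ x, ‖g x‖ ≤ B)
    (hL : ∀ x y, ‖g x - g y‖ ≤ L * |x - y|) (hL0 : 0 ≤ L)
    (α : ℝ) (M d : ℕ) (hd : |2 * π * d - α * Rh M| ≤ 2 * π) :
    ‖∑ j ∈ range d, g (ph M j) - (Rh M / (2 * π) : ℂ) * ∫ x in (0:ℝ)..α, g x‖ ≤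
      L * (α + 4 * π) + B := by
  have hπ := Real.pi_pos
  have hN' : (0:ℝ) < Rh M := Rh_pos M
  set h : ℝ := 2 * π / Rh M with hh
  have hpos : 0 < h := by positivity
  have hphi : ∀ j : ℕ, ph M j = (j : ℝ) * h + h := by
    intro j
    simp only [ph, hh]
    field_simp
  have hsum : ∑ j ∈ range d, ∫ x in ((j : ℝ) * h)..((j : ℝ) * h + h), g x = ∫ x in (0:ℝ)..(d * h), g x := by
    have := intervalIntegral.sum_integral_adjacent_intervals (μ := volume) (f := g)
      (a := fun k : ℕ => (k : ℝ) * h) (n := d) (fun k _ => hg.intervalIntegrable _ _)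
    simp only [Nat.cast_zero, zero_mul] at this
    rw [← this]
    refine Finset.sum_congr rfl fun j _ => ?_
    congr 1
    push_cast
    ring
  have hcells : ‖∑ j ∈ range d, (h : ℂ) * g (ph M j) - ∫ x in (0:ℝ)..(d * h), g x‖ ≤ d * (L * h * h) := by
    rw [← hsum, ← Finset.sum_sub_distrib]
    refine (norm_sum_le _ _).trans ?_
    calc ∑ j ∈ range d, ‖(h : ℂ) * g (ph M j) - ∫ x in ((j : ℝ) * h)..((j : ℝ) * h + h), g x‖
        ≤ ∑ j ∈ range d, L * h * h := by
          refine Finset.sum_le_sum fun j _ => ?_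
          rw [hphi]
          exact cellR g L hg hL hL0 _ h hpos.le
      _ = d * (L * h * h) := by simp
  have hdh : |d * h - α| ≤ h := by
    have : (d : ℝ) * h - α = (2 * π * d - α * Rh M) / Rh M := by
      simp only [hh]; field_simp
    rw [this, abs_div, abs_of_pos hN', hh]
    gcongr
  have hend : ‖(∫ x in (0:ℝ)..(d * h), g x) - ∫ x in (0:ℝ)..α, g x‖ ≤ B * h := by
    rw [intervalIntegral.integral_interval_sub_left (hg.intervalIntegrable _ _) (hg.intervalIntegrable _ _)]
    refine (intervalIntegral.norm_integral_le_of_norm_le_const (C := B) (fun x _ => hB x)).trans ?_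
    have hB0 : 0 ≤ B := (norm_nonneg _).trans (hB 0)
    gcongr
  have htot : ‖∑ j ∈ range d, (h : ℂ) * g (ph M j) - ∫ x in (0:ℝ)..α, g x‖ ≤
      d * (L * h * h) + B * h := by
    have := norm_add_le (∑ j ∈ range d, (h : ℂ) * g (ph M j) - ∫ x in (0:ℝ)..(d * h), g x)
      ((∫ x in (0:ℝ)..(d * h), g x) - ∫ x in (0:ℝ)..α, g x)
    rw [sub_add_sub_cancel] at this
    exact this.trans (add_le_add hcells hend)
  have hC : ((Rh M / (2 * π) : ℝ) : ℂ) * (h : ℂ) = 1 := by
    rw [← Complex.ofReal_mul, hh]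
    rw [show Rh M / (2 * π) * (2 * π / Rh M) = 1 by field_simp]
    simp
  have heq : ∑ j ∈ range d, g (ph M j) - (Rh M / (2 * π) : ℂ) * ∫ x in (0:ℝ)..α, g x =
      ((Rh M / (2 * π) : ℝ) : ℂ) * (∑ j ∈ range d, (h : ℂ) * g (ph M j) - ∫ x in (0:ℝ)..α, g x) := by
    rw [mul_sub, ← Finset.mul_sum, ← mul_assoc, hC, one_mul]
    push_cast
    ring
  rw [heq, norm_mul, Complex.norm_real, Real.norm_of_nonneg (by positivity)]
  have hdle : d * h ≤ α + 4 * π := by
    have h1 := (abs_le.1 hdh).2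
    have h2 : h ≤ 4 * π := by
      rw [hh, div_le_iff₀ hN']
      nlinarith [Rh_half M]
    linarith
  calc (Rh M / (2 * π) : ℝ) * ‖∑ j ∈ range d, (h : ℂ) * g (ph M j) - ∫ x in (0:ℝ)..α, g x‖
      ≤ (Rh M / (2 * π) : ℝ) * (d * (L * h * h) + B * h) := by gcongr
    _ = L * (d * h) + B := by simp only [hh]; field_simp
    _ ≤ L * (α + 4 * π) + B := by gcongr

section
variable (b η s : ℝ)

theorem tt_c : Tendsto (fun M : ℕ => ((tt s M : ℝ) : ℂ)) atTop (𝓝 0) := by
  have := (Complex.continuous_ofReal.tendsto _).comp (tt_zero s)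
  rw [Complex.ofReal_zero] at this
  exact this

theorem nat_tt {M : ℕ} (hM : 0 < M) : (M : ℝ) * tt s M = s * Real.sqrt M := by
  have hN' : (0:ℝ) < M := by exact_mod_cast hM
  have hs0 : 0 < Real.sqrt M := Real.sqrt_pos.2 hN'
  have hsq : Real.sqrt M ^ 2 = M := Real.sq_sqrt hN'.le
  rw [tt]; field_simp; linear_combination (-s) * hsq

theorem lim_bR : Tendsto (fun M : ℕ => (Rh M : ℂ) * Dl b η s M +
    ((Rh M * tt s M : ℝ) : ℂ) * Complex.sin (-b + η * Complex.I)) atTop
    (𝓝 (-((s:ℂ) ^ 2 / 2) * Complex.cos (-b + η * Complex.I))) := by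
  have h1 := lim_b b η s
  have h2 := ((lim_D b η s).add ((tt_c s).mul_const (Complex.sin (-b + η * Complex.I)))).const_mul
    (1 / 2 : ℂ)
  have h3 := h1.add h2
  rw [zero_mul, add_zero, mul_zero, add_zero] at h3
  refine h3.congr' ?_
  filter_upwards [eventually_gt_atTop 0] with M hM
  have h4 := nat_tt s hM
  rw [← h4]
  unfold Rh
  push_cast
  ring

theorem lim_dR : Tendsto (fun M : ℕ => (Rh M : ℂ) * Dl b η s M ^ 2) atTop
    (𝓝 ((s:ℂ) ^ 2 * Complex.sin (-b + η * Complex.I) ^ 2)) := by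
  have h1 := lim_d b η s
  have h2 := ((lim_D b η s).pow 2).const_mul (1 / 2 : ℂ)
  have h3 := h1.add h2
  rw [zero_pow two_ne_zero, mul_zero, add_zero] at h3
  refine h3.congr (fun M => ?_)
  unfold Rh
  push_cast
  ring

end

section
variable {b η : ℝ} (hδ : 0 < Real.sin b * Real.sinh η) (α s : ℝ) (d : ℕ → ℕ)
  (hd : ∀ M : ℕ, |2 * π * (d M) - α * Rh M| ≤ 2 * π)

include hd in
theorem d_leR (hα : 0 < α) (M : ℕ) (hM : 0 < M) :
    (d M : ℝ) ≤ (2 * α + 2 * π) / (2 * π) * M := by
  have hπ := Real.pi_pos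
  have hM' : (1:ℝ) ≤ M := by exact_mod_cast hM
  have := (abs_le.1 (hd M)).2
  unfold Rh at this
  rw [div_mul_eq_mul_div, le_div_iff₀ (by positivity)]
  nlinarith

include hδ hd

/-- the linear term -/
theorem lim_S1R : Tendsto (fun M : ℕ => Dl b η s M * (∑ j ∈ range (d M), wi b η (ph M j)) +
    ((Rh M * tt s M : ℝ) : ℂ) / (2 * π) *
      (Complex.sin (-b + η * Complex.I) * ∫ x in (0:ℝ)..α, wi b η x)) atTop
    (𝓝 (-((s:ℂ) ^ 2 / (4 * π)) * (Complex.cos (-b + η * Complex.I) * ∫ x in (0:ℝ)..α, wi b η x))) := by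
  have hπ : (π : ℂ) ≠ 0 := by exact_mod_cast Real.pi_ne_zero
  have h1 := (lim_bR b η s).mul_const (1 / (2 * π : ℂ) * ∫ x in (0:ℝ)..α, wi b η x)
  have h2 : Tendsto (fun M : ℕ => Dl b η s M * (∑ j ∈ range (d M), wi b η (ph M j) -
      (Rh M / (2 * π) : ℂ) * ∫ x in (0:ℝ)..α, wi b η x)) atTop (𝓝 0) := by
    refine squeeze_zero_norm' (a := fun M : ℕ => ‖Dl b η s M‖ *
      (((Real.sin b * Real.sinh η)⁻¹) ^ 2 * (α + 4 * π) + (Real.sin b * Real.sinh η)⁻¹)) ?_ ?_
    · filter_upwards with M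
      rw [norm_mul]
      gcongr
      exact riemannR (wi b η) _ _ (wi_cont hδ) (wi_norm hδ) (wi_lip hδ) (by positivity) α M (d M) (hd M)
    · have := (lim_D b η s).norm.mul_const
        (((Real.sin b * Real.sinh η)⁻¹) ^ 2 * (α + 4 * π) + (Real.sin b * Real.sinh η)⁻¹)
      rwa [norm_zero, zero_mul] at this
  have h3 := h1.add h2
  refine (h3.congr (fun M => ?_)).trans (le_of_eq ?_)
  · field_simp
    ring
  · congr 1
    field_simp
    ring

/-- the quadratic term -/
theorem lim_S2R : Tendsto (fun M : ℕ => Dl b η s M ^ 2 * (∑ j ∈ range (d M), wi b η (ph M j) ^ 2)) atTop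
    (𝓝 ((s:ℂ) ^ 2 / (2 * π) *
      (Complex.sin (-b + η * Complex.I) ^ 2 * ∫ x in (0:ℝ)..α, wi b η x ^ 2))) := by
  have hπ : (π : ℂ) ≠ 0 := by exact_mod_cast Real.pi_ne_zero
  have h1 := (lim_dR b η s).mul_const (1 / (2 * π : ℂ) * ∫ x in (0:ℝ)..α, wi b η x ^ 2)
  have h2 : Tendsto (fun M : ℕ => Dl b η s M ^ 2 * (∑ j ∈ range (d M), wi b η (ph M j) ^ 2 -
      (Rh M / (2 * π) : ℂ) * ∫ x in (0:ℝ)..α, wi b η x ^ 2)) atTop (𝓝 0) := by
    refine squeeze_zero_norm' (a := fun M : ℕ => ‖Dl b η s M‖ ^ 2 *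
      ((2 * ((Real.sin b * Real.sinh η)⁻¹) ^ 3) * (α + 4 * π) + ((Real.sin b * Real.sinh η)⁻¹) ^ 2)) ?_ ?_
    · filter_upwards with M
      rw [norm_mul, norm_pow]
      gcongr
      refine riemannR (fun x => wi b η x ^ 2) _ _ ((wi_cont hδ).pow 2) (fun x => ?_) (wi_sq_lip hδ)
        (by positivity) α M (d M) (hd M)
      rw [norm_pow]
      have := wi_norm hδ x
      gcongr
    · have := ((lim_D b η s).norm.pow 2).mul_const
        ((2 * ((Real.sin b * Real.sinh η)⁻¹) ^ 3) * (α + 4 * π) + ((Real.sin b * Real.sinh η)⁻¹) ^ 2)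
      rwa [norm_zero, zero_pow two_ne_zero, zero_mul] at this
  have h3 := h1.add h2
  refine (h3.congr (fun M => ?_)).trans (le_of_eq ?_)
  · field_simp
    ring
  · congr 1
    field_simp
    ring

/-- the remainder -/
theorem lim_RR (hα : 0 < α) : Tendsto (fun M : ℕ => ∑ j ∈ range (d M),
    (Complex.log (1 + Dl b η s M * wi b η (ph M j)) -
      (Dl b η s M * wi b η (ph M j) - (Dl b η s M * wi b η (ph M j)) ^ 2 / 2))) atTop (𝓝 0) := by
  set W : ℝ := (Real.sin b * Real.sinh η)⁻¹ with hW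
  have hW0 : 0 < W := by positivity
  have hsmall : ∀ᶠ M : ℕ in atTop, ‖Dl b η s M‖ * W ≤ 1 / 2 := by
    have := (lim_D b η s).norm.mul_const W
    rw [norm_zero, zero_mul] at this
    exact this.eventually (ge_mem_nhds (by norm_num : (0:ℝ) < 1 / 2))
  refine squeeze_zero_norm' (a := fun M : ℕ => (2 * α + 2 * π) / (2 * π) * W ^ 3 *
    (‖((Real.sqrt M : ℝ) : ℂ) * Dl b η s M‖ ^ 3 * (1 / Real.sqrt M))) ?_ ?_
  · filter_upwards [hsmall, eventually_gt_atTop 0] with N hs hN
    have hN' : (0:ℝ) < N := by exact_mod_cast hN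
    have hs0 : 0 < Real.sqrt N := Real.sqrt_pos.2 hN'
    have hsq : Real.sqrt N ^ 2 = N := Real.sq_sqrt hN'.le
    have hterm : ∀ j ∈ range (d N), ‖Complex.log (1 + Dl b η s N * wi b η (ph N j)) -
        (Dl b η s N * wi b η (ph N j) - (Dl b η s N * wi b η (ph N j)) ^ 2 / 2)‖ ≤
        (‖Dl b η s N‖ * W) ^ 3 := by
      intro j _
      set z := Dl b η s N * wi b η (ph N j) with hz
      have hzn : ‖z‖ ≤ ‖Dl b η s N‖ * W := by
        rw [hz, norm_mul]
        have := wi_norm hδ (ph N j)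
        gcongr
      have hz2 : ‖z‖ ≤ 1 / 2 := hzn.trans hs
      have h := Complex.norm_log_sub_logTaylor_le 2 (z := z) (by linarith)
      have hT : Complex.logTaylor (2 + 1) z = z - z ^ 2 / 2 := by
        simp [Complex.logTaylor, Finset.sum_range_succ]
        ring
      rw [hT] at h
      refine h.trans ?_
      have h1 : (1 - ‖z‖)⁻¹ ≤ 2 := by
        rw [inv_le_comm₀ (by linarith) (by norm_num)]
        linarith
      have h0 : 0 ≤ ‖z‖ ^ (2 + 1) := by positivity
      calc ‖z‖ ^ (2 + 1) * (1 - ‖z‖)⁻¹ / ((2 : ℕ) + 1) ≤ ‖z‖ ^ (2 + 1) * 2 / ((2 : ℕ) + 1) := by gcongr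
        _ ≤ ‖z‖ ^ 3 := by
          have h00 : 0 ≤ ‖z‖ ^ 3 := by positivity
          push_cast
          linarith
        _ ≤ _ := by gcongr
    refine (norm_sum_le _ _).trans ((Finset.sum_le_sum hterm).trans ?_)
    rw [Finset.sum_const, card_range, nsmul_eq_mul]
    have hdl := d_leR α d hd hα N hN
    rw [norm_mul, Complex.norm_real, Real.norm_of_nonneg hs0.le]
    calc (d N : ℝ) * (‖Dl b η s N‖ * W) ^ 3 ≤ ((2 * α + 2 * π) / (2 * π) * N) * (‖Dl b η s N‖ * W) ^ 3 := by
          gcongr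
      _ = _ := by
        rw [mul_pow, mul_pow, show Real.sqrt N ^ 3 = N * Real.sqrt N by rw [pow_succ, hsq]]
        field_simp
  · have h0 : Tendsto (fun N : ℕ => 1 / Real.sqrt N) atTop (𝓝 0) := sqrt_top.const_div_atTop 1
    have h1 := (((lim_c b η s).norm.pow 3).mul h0).const_mul ((2 * α + 2 * π) / (2 * π) * W ^ 3)
    rwa [mul_zero, mul_zero] at h1

/-- the exponent of the product -/
theorem lim_logR (hα : 0 < α) : Tendsto (fun M : ℕ => (∑ j ∈ range (d M),
    Complex.log (1 + Dl b η s M * wi b η (ph M j))) +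
    ((Rh M * tt s M : ℝ) : ℂ) / (2 * π) *
      (Complex.sin (-b + η * Complex.I) * ∫ x in (0:ℝ)..α, wi b η x)) atTop
    (𝓝 (-((s:ℂ) ^ 2 / (4 * π)) * ((Real.sin α : ℂ) * wi b η α))) := by
  have hπ : (π : ℂ) ≠ 0 := by exact_mod_cast Real.pi_ne_zero
  have h := ((lim_S1R hδ α s d hd).sub ((lim_S2R hδ α s d hd).div_const 2)).add
    (lim_RR hδ α s d hd hα)
  rw [← I2 hδ α]
  refine (h.congr (fun M => ?_)).trans (le_of_eq ?_)
  · rw [Finset.sum_sub_distrib, Finset.sum_sub_distrib, ← Finset.mul_sum]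
    have : ∑ j ∈ range (d M), (Dl b η s M * wi b η (ph M j)) ^ 2 / 2 =
        Dl b η s M ^ 2 * (∑ j ∈ range (d M), wi b η (ph M j) ^ 2) / 2 := by
      rw [Finset.mul_sum, Finset.sum_div]
      refine Finset.sum_congr rfl fun j _ => by ring
    rw [this]
    ring
  · congr 1
    field_simp
    ring

end

theorem RH_ratio {b η : ℝ} (hδ : 0 < Real.sin b * Real.sinh η) (s : ℝ) (M d : ℕ)
    (hs : ‖Dl b η s M‖ * (Real.sin b * Real.sinh η)⁻¹ ≤ 1 / 2) :
    RH M d ((-b + η * Complex.I) + (tt s M : ℝ)) / RH M d (-b + η * Complex.I) =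
      Complex.exp (∑ j ∈ range d, Complex.log (1 + Dl b η s M * wi b η (ph M j))) := by
  rw [Complex.exp_sum, RH, RH, ← Finset.prod_div_distrib]
  refine Finset.prod_congr rfl fun j _ => ?_
  change (_ - 2 * (Real.cos (ph M j) : ℂ)) / (_ - 2 * (Real.cos (ph M j) : ℂ)) = _
  have hne := den_ne hδ (ph M j)
  have h1 : ‖Dl b η s M * wi b η (ph M j)‖ ≤ 1 / 2 := by
    rw [norm_mul]
    refine le_trans ?_ hs
    have := wi_norm hδ (ph M j)
    gcongr
  have h2 : 1 + Dl b η s M * wi b η (ph M j) ≠ 0 := by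
    intro h
    have : Dl b η s M * wi b η (ph M j) = -1 := by linear_combination h
    rw [this, norm_neg, norm_one] at h1
    norm_num at h1
  rw [Complex.exp_log h2]
  have hne2 : -2 * Complex.cos (-b + η * Complex.I) - 2 * (Real.cos (ph M j) : ℂ) ≠ 0 := by
    intro h
    apply hne
    linear_combination (-(1:ℂ) / 2) * h
  rw [div_eq_iff hne2, wi, Dl]
  field_simp
  ring

theorem RH_ne {b η : ℝ} (hδ : 0 < Real.sin b * Real.sinh η) (M d : ℕ) :
    RH M d (-b + η * Complex.I) ≠ 0 := by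
  rw [RH]
  refine Finset.prod_ne_zero_iff.2 fun j _ => ?_
  intro h
  apply den_ne hδ (ph M j)
  unfold ph
  linear_combination (-(1:ℂ) / 2) * h

theorem sin_fac (z : ℂ) : 2 * Complex.I * Complex.sin z = -Complex.exp (-(Complex.I * z)) *
    (1 + -Complex.exp (2 * Complex.I * z)) := by
  have h1 : Complex.exp (2 * Complex.I * z) = Complex.exp (z * Complex.I) ^ 2 := by
    rw [← Complex.exp_nat_mul]; congr 1; push_cast; ring
  have h2 : Complex.exp (-(Complex.I * z)) = (Complex.exp (z * Complex.I))⁻¹ := by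
    rw [← Complex.exp_neg]; congr 1; ring
  have h3 : Complex.exp (-z * Complex.I) = (Complex.exp (z * Complex.I))⁻¹ := by
    rw [neg_mul, Complex.exp_neg]
  have hne := Complex.exp_ne_zero (z * Complex.I)
  rw [h1, h2, Complex.sin, h3]
  field_simp
  ring_nf
  rw [Complex.I_sq]
  ring

theorem Hint_eq2 (A M d : ℕ) (ψ : ℂ) : Hint A M d ψ =
    (-2 * Complex.I) * (Complex.exp (Complex.I * A * Rh M * ψ ^ 2 / (4 * π) +
      Complex.I * Rh M * (ψ + π)) * RH M d ψ *
      (2 * Complex.sin ψ) * Complex.cos (ψ / 2) /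
        (1 + -Complex.exp (2 * Complex.I * (Rh M * (ψ + π))))) := by
  have hs := sin_fac (Rh M * (ψ + π))
  have hne := Complex.exp_ne_zero (Complex.I * (Rh M * (ψ + π)))
  have hI := Complex.I_ne_zero
  rw [Hint, Complex.exp_add]
  have hs2 : Complex.sin (Rh M * (ψ + π)) = Complex.exp (-(Complex.I * (Rh M * (ψ + π)))) *
      (1 + -Complex.exp (2 * Complex.I * (Rh M * (ψ + π)))) / (-2 * Complex.I) := by
    rw [eq_div_iff (by simp [hI])]
    linear_combination (-1 : ℂ) * hs
  rw [hs2, Complex.exp_neg, show Complex.I * Rh M * (ψ + π) = Complex.I * (Rh M * (ψ + π)) by ring]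
  by_cases h : 1 + -Complex.exp (2 * Complex.I * (Rh M * (ψ + π))) = 0
  · simp [h]
  · field_simp

theorem one_add_ER {η : ℝ} (hη : 0 < η) (M : ℕ) (x : ℝ) :
    1 + -Complex.exp (2 * Complex.I * (Rh M * ((x : ℂ) + η * Complex.I + π))) ≠ 0 := by
  intro h
  have h1 : Complex.exp (2 * Complex.I * (Rh M * ((x : ℂ) + η * Complex.I + π))) = 1 := by
    linear_combination (-1 : ℂ) * h
  have h2 := congrArg norm h1
  rw [Complex.norm_exp, norm_one] at h2
  have h3 : (2 * Complex.I * (Rh M * ((x : ℂ) + η * Complex.I + π))).re = -(2 * (Rh M * η)) := by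
    simp
  rw [h3, Real.exp_eq_one_iff] at h2
  have : 0 < Rh M * η := mul_pos (Rh_pos M) hη
  linarith

theorem ER_lim {η : ℝ} (hη : 0 < η) (x : ℕ → ℝ) :
    Tendsto (fun M : ℕ =>
      1 + -Complex.exp (2 * Complex.I * (Rh M * ((x M : ℂ) + η * Complex.I + π)))) atTop (𝓝 1) := by
  have h : Tendsto (fun M : ℕ =>
      Complex.exp (2 * Complex.I * (Rh M * ((x M : ℂ) + η * Complex.I + π)))) atTop (𝓝 0) := by
    rw [tendsto_zero_iff_norm_tendsto_zero]
    have h1 : Tendsto (fun M : ℕ => Real.exp (-(2 * (Rh M * η)))) atTop (𝓝 0) := by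
      refine Real.tendsto_exp_atBot.comp ?_
      refine tendsto_neg_atTop_atBot.comp ?_
      have : Tendsto (fun M : ℕ => Rh M) atTop atTop := by
        unfold Rh
        exact tendsto_atTop_add_const_right _ _ tendsto_natCast_atTop_atTop
      exact (this.atTop_mul_const hη).const_mul_atTop two_pos
    refine h1.congr fun M => ?_
    rw [Complex.norm_exp]
    congr 1
    simp
  have := (h.neg).const_add 1
  rwa [neg_zero, add_zero] at this

theorem hlap : S_HLAP := by
  intro A α b η d hA hc hd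
  have hπ : (π : ℂ) ≠ 0 := by exact_mod_cast Real.pi_ne_zero
  have hδ := crit_sin hc
  have hη := hc.hη
  have hα := hc.hα
  have hI1 := I1 hc
  have hA' : (4:ℝ) ≤ A := by exact_mod_cast hA
  have hb2 : b < π / 2 := by
    have := hc.hbm
    nlinarith [hc.hb]
  refine ⟨-(Complex.I * A) / (4 * π) + (Real.sin α : ℂ) * wi b η α / (4 * π), ?_, ?_⟩
  · have h1 : (-(Complex.I * A) / (4 * π) : ℂ).re = 0 := by
      have : (-(Complex.I * A) / (4 * π) : ℂ) = ((-(A : ℝ) / (4 * π) : ℝ) : ℂ) * Complex.I := by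
        push_cast; ring
      rw [this, Complex.re_ofReal_mul, Complex.I_re, mul_zero]
    have h2 : ((Real.sin α : ℂ) * wi b η α / (4 * π) : ℂ) = ((Real.sin α / (4 * π) : ℝ) : ℂ) * wi b η α := by
      push_cast; ring
    rw [Complex.add_re, h1, h2, zero_add, Complex.re_ofReal_mul]
    have hsα : 0 < Real.sin α := Real.sin_pos_of_pos_of_lt_pi hα (by linarith [hc.hαb, hc.hb])
    have hcb : 0 < Real.cos b := Real.cos_pos_of_mem_Ioo ⟨by linarith [hc.hb], hb2⟩
    have hcα : -Real.cos b < Real.cos α := by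
      rw [← Real.cos_pi_sub]
      exact Real.cos_lt_cos_of_nonneg_of_le_pi hα.le (by linarith [hc.hb]) (by linarith [hc.hαb])
    have hch : 1 ≤ Real.cosh η := Real.one_le_cosh η
    have hre : 0 < (wi b η α).re := by
      rw [wi, Complex.inv_re]
      refine div_pos ?_ (Complex.normSq_pos.2 (den_ne hδ α))
      rw [cos_psi]
      simp only [Complex.add_re, Complex.ofReal_re, Complex.mul_re, Complex.I_re, mul_zero,
        Complex.ofReal_im, Complex.I_im, mul_one, sub_zero, add_zero]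
      nlinarith
    have := Real.pi_pos
    positivity
  · intro s
    have hRt2 : Tendsto (fun M : ℕ => (Rh M : ℂ) * ((tt s M : ℝ) : ℂ) ^ 2) atTop (𝓝 ((s : ℂ) ^ 2)) := by
      have h1 : Tendsto (fun M : ℕ => (1 / 2 : ℂ) * ((tt s M : ℝ) : ℂ) ^ 2 + (s : ℂ) ^ 2) atTop
          (𝓝 ((1 / 2 : ℂ) * 0 ^ 2 + (s : ℂ) ^ 2)) :=
        (((tt_c s).pow 2).const_mul _).add_const _
      rw [zero_pow two_ne_zero, mul_zero, zero_add] at h1
      refine h1.congr' ?_
      filter_upwards [eventually_gt_atTop 0] with M hM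
      have hN' : (0:ℝ) < M := by exact_mod_cast hM
      have hsq : Real.sqrt M ^ 2 = M := Real.sq_sqrt hN'.le
      have hNt2 : (M : ℂ) * ((tt s M : ℝ) : ℂ) ^ 2 = (s:ℂ) ^ 2 := by
        rw [← Complex.ofReal_natCast, ← Complex.ofReal_pow, ← Complex.ofReal_mul, ← Complex.ofReal_pow]
        congr 1
        rw [tt, div_pow, hsq]; field_simp
      rw [← hNt2]
      unfold Rh
      push_cast
      ring
    have hX := ((lim_logR hδ α s d hd hα).add
      ((hRt2.const_mul (Complex.I * A)).div_const (4 * π)))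
    have hX' := (Complex.continuous_exp.tendsto _).comp hX
    have hsn : Complex.sin (-b + η * Complex.I) ≠ 0 := by
      intro h
      have h2 := congrArg Complex.re h
      rw [sin_psi] at h2
      simp only [Complex.add_re, Complex.ofReal_re, Complex.mul_re, Complex.I_re, mul_zero,
        Complex.ofReal_im, Complex.I_im, mul_one, sub_zero, add_zero, Complex.zero_re] at h2
      have h3 : 0 < Real.sin b := Real.sin_pos_of_pos_of_lt_pi hc.hb (by linarith [hc.hαb, hc.hα])
      have h4 := Real.cosh_pos η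
      nlinarith [mul_pos h3 h4]
    have hcn : Complex.cos ((-b + η * Complex.I) / 2) ≠ 0 := by
      intro h
      apply hsn
      rw [show (-b + η * Complex.I : ℂ) = 2 * ((-b + η * Complex.I) / 2) by ring,
        Complex.sin_two_mul, h]
      ring
    have h1ψ : Tendsto (fun M : ℕ => (-b + η * Complex.I) + ((tt s M : ℝ) : ℂ)) atTop
        (𝓝 ((-b + η * Complex.I) + ((0:ℝ) : ℂ))) :=
      ((Complex.continuous_ofReal.tendsto _).comp (tt_zero s)).const_add _
    have hS : Tendsto (fun M : ℕ => Complex.sin ((-b + η * Complex.I) + (tt s M : ℝ)) /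
        Complex.sin (-b + η * Complex.I)) atTop (𝓝 1) := by
      have h2 := ((Complex.continuous_sin.tendsto _).comp h1ψ).div_const (Complex.sin (-b + η * Complex.I))
      rw [Complex.ofReal_zero, add_zero, div_self hsn] at h2
      exact h2
    have hCo : Tendsto (fun M : ℕ => Complex.cos (((-b + η * Complex.I) + (tt s M : ℝ)) / 2) /
        Complex.cos ((-b + η * Complex.I) / 2)) atTop (𝓝 1) := by
      have h2 := ((Complex.continuous_cos.tendsto _).comp (h1ψ.div_const 2)).div_const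
        (Complex.cos ((-b + η * Complex.I) / 2))
      rw [Complex.ofReal_zero, add_zero, div_self hcn] at h2
      exact h2
    have hE0 := ER_lim hη (fun _ => -b)
    have hE1 := ER_lim hη (fun M => -b + tt s M)
    have hE := (hE0.div hE1 one_ne_zero)
    rw [div_one] at hE
    have hall := ((hX'.mul hS).mul hCo).mul hE
    rw [mul_one, mul_one, mul_one] at hall
    have hsmall : ∀ᶠ M : ℕ in atTop, ‖Dl b η s M‖ * (Real.sin b * Real.sinh η)⁻¹ ≤ 1 / 2 := by
      have := (lim_D b η s).norm.mul_const (Real.sin b * Real.sinh η)⁻¹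
      rw [norm_zero, zero_mul] at this
      exact this.eventually (ge_mem_nhds (by norm_num : (0:ℝ) < 1 / 2))
    have hlim : -((s:ℂ) ^ 2 / (4 * π)) * ((Real.sin α : ℂ) * wi b η α) +
        Complex.I * A * s ^ 2 / (4 * π) =
        -(-(Complex.I * A) / (4 * π) + (Real.sin α : ℂ) * wi b η α / (4 * π)) * s ^ 2 := by
      field_simp
      ring
    rw [hlim] at hall
    refine hall.congr' ?_
    filter_upwards [hsmall, eventually_gt_atTop 0] with M hs hM
    have hψ : (-b + s / (Real.sqrt M : ℝ) + η * Complex.I : ℂ) = (-b + η * Complex.I) + (tt s M : ℝ) := by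
      rw [tt]; push_cast; ring
    have hψe : (-b + η * Complex.I) + ((tt s M : ℝ) : ℂ) = (((-b + tt s M : ℝ)) : ℂ) + η * Complex.I := by
      push_cast; ring
    rw [hψ, Hint_eq2, Hint_eq2]
    have hRR := RH_ratio hδ s M (d M) hs
    have hRn := RH_ne hδ M (d M)
    have hRR' : RH M (d M) ((-b + η * Complex.I) + (tt s M : ℝ)) =
        Complex.exp (∑ j ∈ range (d M), Complex.log (1 + Dl b η s M * wi b η (ph M j))) *
          RH M (d M) (-b + η * Complex.I) := by
      rw [← hRR, div_mul_cancel₀ _ hRn]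
    rw [hRR']
    have hq0 : 1 + -Complex.exp (2 * Complex.I * (Rh M * ((-b + η * Complex.I) + π))) ≠ 0 := by
      have := one_add_ER hη M (-b)
      rwa [Complex.ofReal_neg] at this
    have hq1 : 1 + -Complex.exp (2 * Complex.I * (Rh M * ((-b + η * Complex.I) + (tt s M : ℝ) + π))) ≠ 0 := by
      have := one_add_ER hη M (-b + tt s M)
      rwa [← hψe] at this
    have hexp : Complex.exp (Complex.I * A * Rh M * ((-b + η * Complex.I) + (tt s M : ℝ)) ^ 2 / (4 * π) +
        Complex.I * Rh M * ((-b + η * Complex.I) + (tt s M : ℝ) + π)) =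
        Complex.exp (((Rh M * tt s M : ℝ) : ℂ) / (2 * π) *
          (Complex.sin (-b + η * Complex.I) * ∫ x in (0:ℝ)..α, wi b η x) +
          Complex.I * A * (Rh M * ((tt s M : ℝ) : ℂ) ^ 2) / (4 * π)) *
        Complex.exp (Complex.I * A * Rh M * (-b + η * Complex.I) ^ 2 / (4 * π) +
          Complex.I * Rh M * ((-b + η * Complex.I) + π)) := by
      rw [← Complex.exp_add]
      congr 1
      rw [hI1]
      push_cast
      field_simp
      ring_nf
      simp only [Complex.I_sq]
      ring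
    rw [hexp]
    simp only [Function.comp_apply]
    have hE0' : (1 + -Complex.exp (2 * Complex.I * (Rh M * (((-b : ℝ) : ℂ) + η * Complex.I + π)))) =
        1 + -Complex.exp (2 * Complex.I * (Rh M * ((-b + η * Complex.I) + π))) := by
      rw [Complex.ofReal_neg]
    have hE1' : (1 + -Complex.exp (2 * Complex.I * (Rh M * (((-b + tt s M : ℝ) : ℂ) + η * Complex.I + π)))) =
        1 + -Complex.exp (2 * Complex.I * (Rh M * ((-b + η * Complex.I) + (tt s M : ℝ) + π))) := by
      rw [← hψe]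
    simp only [Pi.div_apply]
    rw [hE0', hE1', add_assoc, Complex.exp_add]
    have hn1 := Complex.exp_ne_zero (Complex.I * A * Rh M * (-b + η * Complex.I) ^ 2 / (4 * π) +
          Complex.I * Rh M * ((-b + η * Complex.I) + π))
    generalize Complex.exp (Complex.I * A * Rh M * (-b + η * Complex.I) ^ 2 / (4 * π) +
          Complex.I * Rh M * ((-b + η * Complex.I) + π)) = X1 at *
    generalize 1 + -Complex.exp (2 * Complex.I * (Rh M * ((-b + η * Complex.I) + π))) = X2 at *
    generalize 1 + -Complex.exp (2 * Complex.I * (Rh M * ((-b + η * Complex.I) + (tt s M : ℝ) + π))) = X3 at *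
    generalize RH M (d M) (-b + η * Complex.I) = X4 at *
    generalize Complex.sin ((-b + η * Complex.I) + (tt s M : ℝ)) = X5 at *
    generalize Complex.cos (((-b + η * Complex.I) + (tt s M : ℝ)) / 2) = X6 at *
    have hI := Complex.I_ne_zero
    field_simp

end Pool.Agent.W505.TV
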